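import Pool.Agent.H24.HL.Stmt
import Pool.Agent.H72.Exact.Stmt
import Pool.Agent.H99.Sp.Stmt

/-!
# Definitions for the statement on families of finite groups
-/

namespace Pool.Agent.H42.Fam

open Pool.Agent.H24.HL Pool.Agent.H72.Exact Pool.Agent.H99.Sp

/-- The degree `r` is small for the group `G`:
* `G` is an alternating group `A_n`, `n ≥ 18`, or a symmetric group `S_n`, `n ≥ 11`, and
  `r < n - 2` if `n` is prime, `r < n - 1` if not;
* or `G` is a quotient of a group between `SL_n(q)` and `GL_n(q)`, `q` a power of the prime `p`, and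
  `2 ≤ n`, `p ≤ n`, `r < q ^ (n - 1) - 1` or `3 ≤ n`, `r < n`;
* or `G` is a quotient of `Sp_{2n}(q)`, `q` a power of the prime `p`, and `p = 2`, `n = 1`,
  `r < q - 1`, or `p = 2` and `r < (q ^ n - 1) * (q ^ n - q) / (2 * (q + 1))`, or `p` is odd,
  `p ≤ n` and `r < (q ^ n - 1) / 2`, or `p` is odd, `2 ≤ n` and `r < 2 * n`. -/
def SmallFor (r : ℕ) (G : Type) [Group G] : Prop :=
  (∃ n : ℕ, IsAltSym n G ∧ r < critDegree n) ∨
  (∃ q p n : ℕ, IsLinearType q p n G ∧ SmallDegree q p n r) ∨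
  (∃ q p n : ℕ, IsSymplecticType q p n G ∧ SmallSpDegree q p n r)

end Pool.Agent.H42.Fam
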