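import Pool.Agent.H42.Fam.Defs
import Pool.Agent.H24.HL.Final
import Pool.Agent.H98.GL.Main
import Pool.Agent.H72.Exact.Order
import Pool.Agent.H72.Exact.Primes
import Pool.Agent.H99.Sp.Artin

/-!
Heilbronn class functions of small degree on the families.
-/

open NumberField Module
open Pool.Agent.H7.Artin Pool.Agent.H24.HL Pool.Agent.H72.Exact Pool.Agent.H99.Sp

namespace Pool.Agent.H42.Fam

theorem altSym_main {n : ℕ} {G : Type} [Group G] [Fintype G] {θ : G → ℂ} {r : ℕ}
    (hG : IsAltSym n G) (hθ : Pool.Agent.H7.HB.Heil θ) (hr : θ 1 = r) (hlt : r < critDegree n) :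
    IsSumLinear θ := by
  have hb : r + 2 ≤ n ∧ (n.Prime → r + 3 ≤ n) := by
    unfold critDegree at hlt
    split_ifs at hlt with h
    · exact ⟨by omega, fun _ => by omega⟩
    · exact ⟨by omega, fun h' => absurd h' h⟩
  rcases hG with ⟨hn, ⟨e⟩⟩ | ⟨hn, ⟨e⟩⟩
  · refine ⟨Multiset.replicate r 1, fun g => ?_⟩
    rw [heil_alternating' hn e θ hθ hr hb.1 hb.2 g]
    simp
  · have h1 := hθ.comp e.symm.toMonoidHom
    obtain ⟨a, b, hab⟩ := main' (r := r) h1 (by
      change θ (e.symm 1) = r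
      rw [map_one, hr]) (by rw [Fintype.card_fin]; omega) (by rw [Fintype.card_fin]; exact hb.1)
      (by rw [Fintype.card_fin]; exact hb.2)
    refine ⟨Multiset.replicate a 1 +
      Multiset.replicate b (Pool.Agent.H7.HB.sgnC.comp e.toMonoidHom), fun g => ?_⟩
    have h2 := hab (e g)
    change θ (e.symm (e g)) = _ at h2
    rw [MulEquiv.symm_apply_apply] at h2
    rw [h2]
    simp

theorem altSym_exact {n : ℕ} {G : Type} [Group G] [Fintype G] (hG : IsAltSym n G) :
    ∃ θ : G → ℂ, IsHeilbronn θ ∧ θ 1 = critDegree n ∧ ¬ IsCharacter θ := by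
  -- the two examples on the concrete groups
  have hc : Fintype.card (Fin n) = n := Fintype.card_fin n
  have key : ∀ (Γ : Type) [Group Γ] [Fintype Γ] (e : G ≃* Γ) (ϑ : Γ → ℂ), IsHeilbronn ϑ →
      ϑ 1 = critDegree n →
      (∀ (V : Type) [AddCommGroup V] [Module ℂ V] [FiniteDimensional ℂ V]
        (ρ : Representation ℂ Γ V), ρ.character ≠ ϑ) →
      ∃ θ : G → ℂ, IsHeilbronn θ ∧ θ 1 = critDegree n ∧ ¬ IsCharacter θ := by
    intro Γ _ _ e ϑ h1 h2 h3
    refine ⟨fun g => ϑ (e g), HeilToHeilbronn (h1.heil.comp e.toMonoidHom), ?_, ?_⟩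
    · change ϑ (e 1) = _
      rw [map_one, h2]
    · rintro ⟨V, _, _, _, ρ, hρ⟩
      refine h3 V (MonoidHom.comp ρ e.symm.toMonoidHom) ?_
      funext x
      have h4 := congrFun hρ (e.symm x)
      simp only [MulEquiv.apply_symm_apply] at h4
      exact h4
  have h11 : 11 ≤ n := by rcases hG with h | h <;> omega
  by_cases hp : n.Prime
  · have : Fact n.Prime := ⟨hp⟩
    have hd : ((critDegree n : ℕ) : ℂ) = (n : ℂ) - 2 := by
      unfold critDegree
      rw [if_pos hp, Nat.cast_sub (by omega)]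
      norm_num
    rcases hG with ⟨hn, ⟨e⟩⟩ | ⟨hn, ⟨e⟩⟩
    · exact key _ e (shFnA n) (isHeilbronn_shFnA n) (by rw [hd]; exact shFnA_one n)
        (fun V _ _ _ ρ => shFnA_not_character (by omega) ρ)
    · exact key _ e (shFn n) isHeilbronn_shFn (by rw [hd]; exact shFn_one)
        (fun V _ _ _ ρ => shFn_not_character (by omega) ρ)
  · have h12 : 12 ≤ n := by
      rcases Nat.lt_or_ge n 12 with h | h
      · exact absurd (by norm_num) (show n = 11 by omega ▸ hp)
      · exact h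
    obtain ⟨q, hq, h5, hM, hqn, hn2⟩ := exists_degree_prime n h12
    have : Fact q.Prime := ⟨hq⟩
    have : Nonempty (Fin n) := ⟨⟨0, by omega⟩⟩
    have hd : ((critDegree n : ℕ) : ℂ) = (n : ℂ) - 1 := by
      unfold critDegree
      rw [if_neg hp, Nat.cast_sub (by omega)]
      norm_num
    rcases hG with ⟨hn, ⟨e⟩⟩ | ⟨hn, ⟨e⟩⟩
    · refine key _ e (exFA q) (isHeilbronn_exFA (by rw [hc]; exact hn2) (by omega) hM) ?_
        (fun V _ _ _ ρ => exFA_not_character (by rw [hc]; exact hn2) h5 (by rw [hc]; exact hqn) ρ)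
      have h1 : exFA q (1 : alternatingGroup (Fin n)) = exF q (1 : Equiv.Perm (Fin n)) := rfl
      rw [h1, exF_one, hc, hd]
    · refine key _ e (exF q) (isHeilbronn_exF (by rw [hc]; exact hn2) (by omega) hM) ?_
        (fun V _ _ _ ρ => exF_not_character (by rw [hc]; exact hn2) h5 (by rw [hc]; exact hqn) ρ)
      rw [exF_one, hc, hd]

theorem linear_main {q p n r : ℕ} {G : Type} [Group G] [Fintype G] {θ : G → ℂ}
    (hG : IsLinearType q p n G) (hs : SmallDegree q p n r) (hθ : Pool.Agent.H7.HB.Heil θ)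
    (hr : θ 1 = r) : IsSumLinear θ := by
  obtain ⟨F, _, _, H, hq, _, hH, f, hf⟩ := hG
  have : Fintype F := Fintype.ofFinite F
  subst hq
  by_cases h3 : 3 ≤ n
  · have hH' : ∀ A : Matrix.SpecialLinearGroup (Fin n) F, (A : GL (Fin n) F) ∈ H := fun A =>
      hH _ (by ext; simp)
    obtain ⟨ψ, hψ⟩ := Pool.Agent.H98.GL.heil_linear p h3 H hH' f hf hθ r hr (by
      rcases hs with h | h
      · exact Or.inr ⟨h.2.1, h.2.2⟩
      · exact Or.inl h.2)
    exact ⟨(Finset.univ : Finset (Fin r)).val.map ψ, fun g => by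
      rw [hψ g, Multiset.map_map]; rfl⟩
  · rcases hs with h | h
    · rw [Nat.card_eq_fintype_card] at h
      exact matrix_small (p := p) H hH f hf hθ hr (Or.inl h)
    · omega

theorem symplectic_main {q p n r : ℕ} {G : Type} [Group G] [Fintype G] {θ : G → ℂ}
    (hG : IsSymplecticType q p n G) (hs : SmallSpDegree q p n r) (hθ : Pool.Agent.H7.HB.Heil θ)
    (hr : θ 1 = r) : IsSumLinear θ := by
  obtain ⟨F, _, _, hq, _, f, hf⟩ := hG
  subst hq
  refine ⟨Multiset.replicate r 1, fun g => ?_⟩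
  rw [heil_sp p f hf hθ hr hs g]
  simp

theorem family_main {r : ℕ} {G : Type} [Group G] [Fintype G] {θ : G → ℂ} (hG : SmallFor r G)
    (hθ : Pool.Agent.H7.HB.Heil θ) (hr : θ 1 = r) : IsSumLinear θ := by
  rcases hG with ⟨n, h1, h2⟩ | ⟨q, p, n, h1, h2⟩ | ⟨q, p, n, h1, h2⟩
  · exact altSym_main h1 hθ hr h2
  · exact linear_main h1 h2 hθ hr
  · exact symplectic_main h1 h2 hθ hr

end Pool.Agent.H42.Fam
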